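import Pool.Agent.Helper92.MT.IRM
import Pool.Agent.Helper3.MU.TRG
import Pool.Agent.Helper84.MU.IDX
import Pool.Agent.Helper21.MT7.Stmts

/-! BAL7: the balance of determinants for open subgroups (helper92). -/

set_option autoImplicit false
set_option maxHeartbeats 800000

open Matrix Polynomial NumberField MU

namespace MT

section
variable {F : Type} [Field F] [NumberField F] {S : Finset ℕ} {n w : ℕ} {h : Fin n → ℕ}

omit [NumberField F] in
lemma b7_comap_open {G : Type} [Group G] [TopologicalSpace G] (K : Subgroup G)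
    (hK : IsOpen (K : Set G)) (e : Gal F ≃* K) (hec : Continuous (fun g : K => e.symm g))
    (H : Subgroup (Gal F)) (hH : IsOpen (H : Set (Gal F))) :
    IsOpen ((H.map (K.subtype.comp e.toMonoidHom) : Subgroup G) : Set G) := by
  have h1 : ((H.map (K.subtype.comp e.toMonoidHom) : Subgroup G) : Set G) =
      Subtype.val '' ((fun g : K => e.symm g) ⁻¹' (H : Set (Gal F))) := by
    ext x
    constructor
    · rintro ⟨g, hg, rfl⟩
      exact ⟨e g, by simpa using hg, rfl⟩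
    · rintro ⟨g, hg, rfl⟩
      refine ⟨e.symm g, hg, ?_⟩
      simp
  rw [h1]
  exact hK.isOpenMap_subtype_val _ (hH.preimage hec)

/-- the elements of `H` as elements of the image -/
noncomputable def b7E {G : Type} [Group G] (K : Subgroup G) (e : Gal F ≃* K)
    (H : Subgroup (Gal F)) : H ≃* (H.map (K.subtype.comp e.toMonoidHom) : Subgroup G) :=
  H.equivMapOfInjective (K.subtype.comp e.toMonoidHom)
    (K.subtype_injective.comp e.injective)

omit [NumberField F] in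
lemma b7E_coe {G : Type} [Group G] (K : Subgroup G) (e : Gal F ≃* K)
    (H : Subgroup (Gal F)) (g : H) : ((b7E K e H g : _) : G) = (e (g : Gal F) : K) := rfl

omit [NumberField F] in
lemma b7E_symm {G : Type} [Group G] (K : Subgroup G) (e : Gal F ≃* K)
    (H : Subgroup (Gal F)) (s : (H.map (K.subtype.comp e.toMonoidHom) : Subgroup G)) :
    ((e (((b7E K e H).symm s : H) : Gal F) : K) : G) = s := by
  rw [← b7E_coe, MulEquiv.apply_symm_apply]

omit [NumberField F] in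
lemma b7E_cont {G : Type} [Group G] [TopologicalSpace G] (K : Subgroup G) (e : Gal F ≃* K)
    (hec : Continuous (fun g : K => e.symm g)) (H : Subgroup (Gal F)) :
    Continuous (fun s : (H.map (K.subtype.comp e.toMonoidHom) : Subgroup G) =>
      (b7E K e H).symm s) := by
  have hle : (H.map (K.subtype.comp e.toMonoidHom) : Subgroup G) ≤ K := by
    rintro x ⟨g, hg, rfl⟩
    exact (e g).2
  refine Continuous.subtype_mk (p := fun g => g ∈ H)
    (f := fun s : (H.map (K.subtype.comp e.toMonoidHom) : Subgroup G) =>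
      (((b7E K e H).symm s : H) : Gal F)) ?_ (fun s => ((b7E K e H).symm s).2)
  have h1 : (fun s : (H.map (K.subtype.comp e.toMonoidHom) : Subgroup G) =>
      (((b7E K e H).symm s : H) : Gal F)) =
      (fun g : K => e.symm g) ∘
        (fun s : (H.map (K.subtype.comp e.toMonoidHom) : Subgroup G) =>
          (⟨(s : G), hle s.2⟩ : K)) := by
    funext s
    change _ = e.symm _
    apply e.injective
    rw [MulEquiv.apply_symm_apply]
    exact Subtype.ext (b7E_symm K e H s)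
  rw [h1]
  exact hec.comp (Continuous.subtype_mk continuous_subtype_val _)

/-- the system of Frobenius elements of an open subgroup `H` and the value of the characters -/
lemma b7_tri (idx : ST_IDX) (inr : ST_INR) (hcyc : ST_CYC) (fre : ST_FRE)
    (F : Type) [Field F] [NumberField F] (H : Subgroup (Gal F))
    (hH : IsOpen (H : Set (Gal F))) :
    ∃ (d : ℕ) (r : ℕ → ℕ) (x : ∀ p, Fin (r p) → H) (k : ∀ p, Fin (r p) → ℕ)
      (𝔔 : ∀ p, Fin (r p) → Ideal (Zb F)), 1 ≤ d ∧ IsFrobH F H d r x k 𝔔 ∧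
      ∀ (l : ℕ) [Fact l.Prime] (A : Type) [CommGroup A]
        [TopologicalSpace A] [IsTopologicalGroup A] [T2Space A] (ψ : H →* A)
        (c : ℤ_[l]ˣ →* A) (Bd : Set ℤ), Continuous ψ → Continuous c →
        (∀ p : ℕ, p.Prime → p ≠ l → ∀ 𝔓 : Ideal (Zb F), Over p 𝔓 → ∀ s : H,
          CongPow 𝔓 1 (s : Gal F) → ψ s = 1) →
        (∀ 𝔓 : Ideal (Zb F), Over l 𝔓 → ∃ b ∈ Bd, ∀ s : H, CongPow 𝔓 1 (s : Gal F) →
          ψ s * c (cyc l F (s : Gal F)) ^ b = 1) →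
        ∃ b : Fin d → ℤ, (∀ i, b i ∈ Bd) ∧
          ∀ p : ℕ, p.Prime → p ≠ l → ∀ u : ℤ_[l]ˣ, (u : ℤ_[l]) = p →
            (∏ i, ψ (x p i)) * c u ^ (∑ i, b i) = 1 := by
  classical
  obtain ⟨K, e, he, hK, hec, hesc, hidx⟩ := idx F
  have hop := b7_comap_open K hK e hesc H hH
  obtain ⟨H', hH'⟩ : ∃ H' : Subgroup (GalQ F), H' = H.map (K.subtype.comp e.toMonoidHom) :=
    ⟨_, rfl⟩
  have hgal : IsGalois ℚ (AlgebraicClosure F) := idx_gal F
  have hfq : Finite (GalQ F ⧸ (H.map (K.subtype.comp e.toMonoidHom))) :=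
    Subgroup.quotient_finite_of_isOpen _ hop
  have hfi : (H.map (K.subtype.comp e.toMonoidHom)).FiniteIndex :=
    Subgroup.finiteIndex_of_finite_quotient
  -- transport
  set E := b7E K e H with hE
  have hval : ∀ (s : (H.map (K.subtype.comp e.toMonoidHom) : Subgroup (GalQ F)))
      (y : AlgebraicClosure F), ((s : GalQ F)) y = ((E.symm s : H) : Gal F) y := by
    intro s y
    have h1 := b7E_symm K e H s
    rw [← h1]
    exact he _ y
  have hval' : ∀ (s : H) (y : AlgebraicClosure F), ((e (s : Gal F) : K) : GalQ F) y =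
      (s : Gal F) y := fun s y => he _ y
  have key : ∀ p : ℕ, ∃ (r : ℕ) (x : Fin r → H) (k : Fin r → ℕ)
      (𝔔 : Fin r → Ideal (Zb F)) (φ : GalQ F), p.Prime →
        ((∑ i, k i = (H.map (K.subtype.comp e.toMonoidHom)).index ∧
          (∀ i, Over p (𝔔 i) ∧ 1 ≤ k i ∧ CongPow (𝔔 i) (p ^ k i) ((x i : H) : Gal F)) ∧
          ∀ 𝔓 : Ideal (Zb F), Over p 𝔓 → ∃ (i : Fin r) (g : H), ∀ y z : Zb F,
            (z : AlgebraicClosure F) = (g : Gal F) (y : AlgebraicClosure F) →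
              (y ∈ 𝔓 ↔ z ∈ 𝔔 i)) ∧
        (∀ (l : ℕ) [Fact l.Prime], p ≠ l → ((cyc l ℚ φ : ℤ_[l]ˣ) : ℤ_[l]) = (p : ℤ_[l])) ∧
        ∀ (A : Type) [CommGroup A]
          (ψ : (H.map (K.subtype.comp e.toMonoidHom) : Subgroup (GalQ F)) →* A),
          ψ.transfer φ = ∏ i, ψ (E (x i))) := by
    intro p
    by_cases hp : p.Prime
    · obtain ⟨⟨𝔓, h𝔓, φ, hφ⟩, -⟩ := fre F p hp
      obtain ⟨r, x, k, 𝔔, h1, h2, h3, h4⟩ := st_TFG2 fre F
        (H.map (K.subtype.comp e.toMonoidHom)) p hp 𝔓 h𝔓 φ hφ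
      refine ⟨r, fun i => E.symm (x i), k, 𝔔, φ, fun _ => ⟨⟨h2, ?_, ?_⟩, ?_, ?_⟩⟩
      · intro i
        obtain ⟨ha, hb, hc⟩ := h1 i
        refine ⟨ha, hb, ?_⟩
        intro y z hz
        exact hc y z (by rw [hval]; exact hz)
      · intro 𝔓' h𝔓'
        obtain ⟨i, g, hg⟩ := h4 𝔓' h𝔓'
        refine ⟨i, E.symm g, fun y z hz => hg y z ?_⟩
        rw [hval]
        exact hz
      · intro l _ hpl
        have h5 := hcyc F ℚ l p hp hpl 𝔓 h𝔓 1 φ (by rwa [pow_one])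
        rwa [pow_one] at h5
      · intro A _ ψ
        rw [h3 A ψ]
        exact Finset.prod_congr rfl fun i _ => by rw [MulEquiv.apply_symm_apply]
    · exact ⟨0, Fin.elim0, Fin.elim0, Fin.elim0, 1, fun h => absurd h hp⟩
  choose r x k 𝔔 φ hkey using key
  refine ⟨(H.map (K.subtype.comp e.toMonoidHom)).index, r, x, k, 𝔔,
    Nat.one_le_iff_ne_zero.mpr hfi.index_ne_zero, fun p hp => (hkey p hp).1, ?_⟩
  intro l _ A _ _ _ _ ψ c Bd hψ hc h1 h2
  have hcycE : ∀ s : (H.map (K.subtype.comp e.toMonoidHom) : Subgroup (GalQ F)),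
      cyc l F ((E.symm s : H) : Gal F) = cyc l ℚ (s : GalQ F) := by
    intro s
    have h3 := cyc_esymm l K e he (e ((E.symm s : H) : Gal F))
    rw [MulEquiv.symm_apply_apply] at h3
    rw [h3, b7E_symm K e H s]
  have g1 : ∀ p : ℕ, p.Prime → p ≠ l → ∀ 𝔓 : Ideal (Zb F), Over p 𝔓 →
      ∀ s : (H.map (K.subtype.comp e.toMonoidHom) : Subgroup (GalQ F)),
      CongPow 𝔓 1 (s : GalQ F) → (ψ.comp E.symm.toMonoidHom) s = 1 := by
    intro p hp hpl 𝔓 h𝔓 s hs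
    refine h1 p hp hpl 𝔓 h𝔓 (E.symm s) ?_
    intro y z hz
    exact hs y z (by rw [hval]; exact hz)
  have g2 : ∀ 𝔓 : Ideal (Zb F), Over l 𝔓 → ∃ b ∈ Bd,
      ∀ s : (H.map (K.subtype.comp e.toMonoidHom) : Subgroup (GalQ F)),
      CongPow 𝔓 1 (s : GalQ F) →
        (ψ.comp E.symm.toMonoidHom) s * c (cyc l ℚ (s : GalQ F)) ^ b = 1 := by
    intro 𝔓 h𝔓
    obtain ⟨b, hb, hb2⟩ := h2 𝔓 h𝔓
    refine ⟨b, hb, fun s hs => ?_⟩
    have h3 := hb2 (E.symm s) (fun y z hz => hs y z (by rw [hval]; exact hz))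
    rw [hcycE] at h3
    exact h3
  obtain ⟨b, hb, hb'⟩ := st_TRG inr hcyc fre F (H.map (K.subtype.comp e.toMonoidHom)) hop l A
    (ψ.comp E.symm.toMonoidHom) (hψ.comp (b7E_cont K e hesc H)) c hc Bd g1 g2
  refine ⟨b, hb, fun p hp hpl u hu => ?_⟩
  obtain ⟨-, h3, h4⟩ := hkey p hp
  have h5 : cyc l ℚ (φ p) = u := Units.ext (by rw [h3 l hpl, hu])
  have h6 := hb' (φ p)
  rw [h4, h5] at h6
  have h7 : ∀ y : H, (ψ.comp E.symm.toMonoidHom) (E y) = ψ y := by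
    intro y
    change ψ (E.symm (E y)) = ψ y
    rw [MulEquiv.symm_apply_apply]
  simpa only [h7] using h6

lemma b7_core (M : QMot F S n w h) (H : Subgroup (Gal F)) (hH : IsOpen (H : Set (Gal F)))
    (l : ℕ) [Fact l.Prime] {m : ℕ} (B : Matrix (Fin n) (Fin m) ℚ_[l])
    (A : H → Matrix (Fin m) (Fin m) ℚ_[l]) (hs : IsSub ((mat (M.ρ l)).comp H.subtype) B A)
    {d : ℕ} {r : ℕ → ℕ} {x : ∀ p, Fin (r p) → H}
    (hT : ∀ (A : Type) [CommGroup A]
        [TopologicalSpace A] [IsTopologicalGroup A] [T2Space A] (ψ : H →* A)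
        (c : ℤ_[l]ˣ →* A) (Bd : Set ℤ), Continuous ψ → Continuous c →
        (∀ p : ℕ, p.Prime → p ≠ l → ∀ 𝔓 : Ideal (Zb F), Over p 𝔓 → ∀ s : H,
          CongPow 𝔓 1 (s : Gal F) → ψ s = 1) →
        (∀ 𝔓 : Ideal (Zb F), Over l 𝔓 → ∃ b ∈ Bd, ∀ s : H, CongPow 𝔓 1 (s : Gal F) →
          ψ s * c (cyc l F (s : Gal F)) ^ b = 1) →
        ∃ b : Fin d → ℤ, (∀ i, b i ∈ Bd) ∧
          ∀ p : ℕ, p.Prime → p ≠ l → ∀ u : ℤ_[l]ˣ, (u : ℤ_[l]) = p →
            (∏ i, ψ (x p i)) * c u ^ (∑ i, b i) = 1) :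
    ∃ (E : ℕ) (J : Fin d → Finset (Fin n)), 1 ≤ E ∧ (∀ i, (J i).card = m) ∧
      ∀ p : ℕ, p.Prime → p ≠ l →
        ((∏ i, (A (x p i)).det) * (p : ℚ_[l]) ^ (∑ i, ∑ j ∈ J i, h j)) ^ E = 1 := by
  obtain ⟨e₁, he₁, hss⟩ := M.semistable l
  obtain ⟨e₂, he₂, hHT⟩ := M.hodgeTate' l H hH m B A hs
  obtain ⟨ε, hε⟩ := bal_det _ B A hs
  obtain ⟨hA1, hA2⟩ := bal_hom _ B A hs
  have hs' := hs
  obtain ⟨⟨C, hC⟩, hA⟩ := hs'
  have hr : ∀ g : H, (mat (M.ρ l)).comp H.subtype g = mat (M.ρ l) (g : Gal F) := fun g => rfl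
  have hA' : ∀ g, A g = C * mat (M.ρ l) (g : Gal F) * B := fun g => by
    rw [Matrix.mul_assoc, ← hr, hA, ← Matrix.mul_assoc, hC, Matrix.one_mul]
  have hεc : Continuous ε := by
    have hc : Continuous (fun g => (ε g : ℚ_[l])) := by
      have e : (fun g => (ε g : ℚ_[l])) = fun g : H =>
          (C * (M.ρ l (g : Gal F) : Matrix (Fin n) (Fin n) ℚ_[l]) * B).det := by
        funext g
        rw [hε, hA']
        rfl
      rw [e]
      have h1 : Continuous (fun g : H => (M.ρ l (g : Gal F) : Matrix (Fin n) (Fin n) ℚ_[l])) :=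
        (Units.continuous_val.comp (M.continuous l)).comp continuous_subtype_val
      exact Continuous.matrix_det (Continuous.matrix_mul
        (Continuous.matrix_mul continuous_const h1) continuous_const)
    refine Units.continuous_iff.mpr ⟨hc, ?_⟩
    have e : (fun g => (((ε g)⁻¹ : (ℚ_[l])ˣ) : ℚ_[l])) =
        (fun g => (ε g : ℚ_[l])) ∘ (fun g => g⁻¹) := by
      funext g
      simp
    rw [e]
    exact hc.comp continuous_inv
  obtain ⟨E, hE⟩ : ∃ E : ℕ, E = e₁ * e₂ := ⟨_, rfl⟩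
  have hE1 : 1 ≤ E := by rw [hE]; exact Nat.mul_pos he₁ he₂
  -- the character `ε ^ E`
  set η : H →* (ℚ_[l])ˣ := (powMonoidHom E).comp ε with hη
  have hηa : ∀ g, η g = ε g ^ E := fun g => rfl
  set f : ℤ_[l] →+* ℚ_[l] := algebraMap ℤ_[l] ℚ_[l] with hf
  have hfc : Continuous f := continuous_subtype_val
  have hout : ∀ p : ℕ, p.Prime → p ≠ l → ∀ 𝔓 : Ideal (Zb F), Over p 𝔓 → ∀ σ : H,
      CongPow 𝔓 1 (σ : Gal F) → (A σ).det ^ E = 1 := by
    intro p hp hpl 𝔓 h𝔓 σ hσ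
    by_cases hpS : p ∈ S
    · have h1 := hss p hpS hpl 𝔓 h𝔓 σ hσ
      have h2 : ∀ i : ℕ, (mat (M.ρ l) (σ : Gal F) ^ e₁ - 1) ^ i * B =
          B * (A σ ^ e₁ - 1) ^ i := by
        intro i
        have e0 : ∀ t : ℕ, mat (M.ρ l) (σ : Gal F) ^ t * B = B * A σ ^ t := by
          intro t
          rw [← map_pow, ← Subgroup.coe_pow, ← hr, hA, irm_pow A hA1 hA2]
        induction i with
        | zero => simp
        | succ i ih =>
          have e1 : (mat (M.ρ l) (σ : Gal F) ^ e₁ - 1) * B = B * (A σ ^ e₁ - 1) := by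
            rw [Matrix.sub_mul, e0, Matrix.one_mul, Matrix.mul_sub, Matrix.mul_one]
          rw [pow_succ, Matrix.mul_assoc, e1, ← Matrix.mul_assoc, ih, Matrix.mul_assoc, pow_succ]
      have h3 := h2 n
      rw [h1, Matrix.zero_mul] at h3
      have h4 : (A σ ^ e₁ - 1) ^ n = 0 := by
        calc (A σ ^ e₁ - 1) ^ n = C * (B * (A σ ^ e₁ - 1) ^ n) := by
              rw [← Matrix.mul_assoc, hC, Matrix.one_mul]
          _ = 0 := by rw [← h3, Matrix.mul_zero]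
      have h5 := bal_unip _ h4
      rw [Matrix.det_pow] at h5
      rw [hE, pow_mul, h5, one_pow]
    · have h1 := M.good l p hp hpS hpl 𝔓 h𝔓 σ hσ
      have h2 : mat (M.ρ l) (σ : Gal F) = 1 := by
        change Units.val (M.ρ l (σ : Gal F)) = 1
        rw [h1]; rfl
      rw [hA', h2, Matrix.mul_one, hC, Matrix.det_one, one_pow]
  obtain ⟨b, hb, hb'⟩ := hT (ℚ_[l])ˣ η (Units.map (f : ℤ_[l] →* ℚ_[l]))
      {b : ℤ | ∃ J : Finset (Fin n), J.card = m ∧ b = ((E * ∑ j ∈ J, h j : ℕ) : ℤ)}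
      (hεc.pow E) (Continuous.units_map _ hfc) (by
        intro p hp hpl 𝔓 h𝔓 σ hσ
        apply Units.ext
        rw [hηa, Units.val_pow_eq_pow_val, hε, hout p hp hpl 𝔓 h𝔓 σ hσ, Units.val_one]) (by
        intro 𝔓 h𝔓
        obtain ⟨J, hJ, hJ'⟩ := hHT 𝔓 h𝔓
        refine ⟨_, ⟨J, hJ, rfl⟩, fun σ hσ => ?_⟩
        have h1 := hJ' σ hσ
        apply Units.ext
        rw [zpow_natCast, Units.val_mul, hηa, Units.val_pow_eq_pow_val, Units.val_pow_eq_pow_val,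
          hε, Units.val_one]
        have h2 : ((A σ).det * (((cyc l F (σ : Gal F) : ℤ_[l]ˣ) : ℤ_[l]) : ℚ_[l]) ^
            (∑ j ∈ J, h j)) ^ E = 1 := by
          rw [hE, mul_comm e₁, pow_mul, h1, one_pow]
        rw [mul_pow, ← pow_mul, mul_comm (∑ j ∈ J, h j) E] at h2
        exact h2)
  choose J hJ hJb using hb
  refine ⟨E, J, hE1, hJ, fun p hp hpl => ?_⟩
  obtain ⟨u, hu⟩ := bal_unitp l p hp hpl
  have h1 := hb' p hp hpl u hu
  have h2 : ∑ i, b i = ((E * ∑ i, ∑ j ∈ J i, h j : ℕ) : ℤ) := by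
    rw [Finset.mul_sum, Nat.cast_sum]
    exact Finset.sum_congr rfl fun i _ => hJb i
  rw [h2, zpow_natCast] at h1
  have h3 := congrArg (Units.val) h1
  rw [Units.val_mul, Units.val_pow_eq_pow_val, Units.val_one, Units.coe_prod] at h3
  simp only [hηa, Units.val_pow_eq_pow_val, hε] at h3
  have h4 : ((Units.map (f : ℤ_[l] →* ℚ_[l]) u : (ℚ_[l])ˣ) : ℚ_[l]) = (p : ℚ_[l]) := by
    rw [Units.coe_map, hu]
    exact map_natCast f p
  rw [h4, Finset.prod_pow, mul_comm E, pow_mul, ← mul_pow] at h3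
  exact h3

/-- the balance of the weights -/
lemma b7_bal (hPRO : ST_PRO) (M : QMot F S n w h) (H : Subgroup (Gal F)) (l : ℕ)
    [Fact l.Prime] {m : ℕ} (B : Matrix (Fin n) (Fin m) ℚ_[l])
    (A : H → Matrix (Fin m) (Fin m) ℚ_[l]) (hs : IsSub ((mat (M.ρ l)).comp H.subtype) B A)
    {d : ℕ} {r : ℕ → ℕ} {x : ∀ p, Fin (r p) → H} {k : ∀ p, Fin (r p) → ℕ}
    {𝔔 : ∀ p, Fin (r p) → Ideal (Zb F)} (hF : IsFrobH F H d r x k 𝔔) (E s : ℕ) (hE : 1 ≤ E)
    (hrel : ∀ p : ℕ, p.Prime → p ≠ l →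
      ((∏ i, (A (x p i)).det) * (p : ℚ_[l]) ^ s) ^ E = 1) : 2 * s = d * m * w := by
  by_contra hne
  obtain ⟨p, hp, hpS, hpl⟩ := bal_prime S l
  obtain ⟨hTr2, hTr1, -⟩ := hF p hp
  have hx : ∀ i, CongPow (𝔔 p i) (p ^ (k p i * E)) ((((x p i) ^ E : H) : Gal F)) := by
    intro i
    rw [pow_mul]
    exact irm_congPow _ _ _ (hTr1 i).2.2 E
  choose P hmonic hP1 hP2 using fun i =>
    M.pure p hp hpS (𝔔 p i) (hTr1 i).1 (k p i * E) (((x p i) ^ E : H) : Gal F)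
      (Nat.mul_pos (hTr1 i).2.1 hE) (hx i) l (Ne.symm hpl)
  obtain ⟨hA1, hA2⟩ := bal_hom _ B A hs
  obtain ⟨D, hD, hD'⟩ := hPRO (r p) m 1 (p ^ (s * E)) (fun i => (p : ℝ) ^ (k p i * E * w)) P hmonic
    hP1 (by
    intro heq
    apply hne
    have h1 : ∏ i, ((p : ℝ) ^ (k p i * E * w)) ^ m =
        (p : ℝ) ^ (d * (E * w * m)) := by
      rw [← hTr2, Finset.sum_mul, ← Finset.prod_pow_eq_pow_sum]
      refine Finset.prod_congr rfl fun i _ => ?_
      rw [← pow_mul]; congr 1; ring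
    rw [h1] at heq
    have h2 : (p : ℝ) ^ (d * (E * w * m)) = (p : ℝ) ^ (2 * (s * E)) := by
      have : ((p ^ (s * E) : ℕ) : ℝ) ^ 2 = (p : ℝ) ^ (2 * (s * E)) := by
        push_cast; rw [← pow_mul]; congr 1; ring
      rw [← this, ← heq]; simp
    have h3 : p ^ (d * (E * w * m)) = p ^ (2 * (s * E)) := by exact_mod_cast h2
    have h4 := Nat.pow_right_injective hp.two_le h3
    have h5 : E * (2 * s) = E * (d * m * w) := by
      calc E * (2 * s) = 2 * (s * E) := by ring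
        _ = d * (E * w * m) := h4.symm
        _ = _ := by ring
    exact Nat.eq_of_mul_eq_mul_left hE h5)
  have hfin := hD' ℚ_[l] (fun i => (A (x p i ^ E)⁻¹).charpoly)
    (fun i => ⟨Matrix.charpoly_monic _, ?_, ?_⟩) ?_
  · exact hD (by exact_mod_cast hfin)
  · rw [Matrix.charpoly_natDegree_eq_dim, Fintype.card_fin]
  · obtain ⟨⟨C, hC⟩, hA⟩ := hs
    exact (bal_dvd _ _ B C hC (hA _)).trans (hP2 i)
  · have e : ∀ i, (-1 : ℚ_[l]) ^ m * ((A (x p i ^ E)⁻¹).charpoly).coeff 0 =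
        (A (x p i ^ E)⁻¹).det := by
      intro i
      rw [Matrix.det_eq_sign_charpoly_coeff, Fintype.card_fin]
    simp only [e]
    have h3 : (∏ i, (A (x p i ^ E)⁻¹).det) * (∏ i, (A (x p i)).det) ^ E = 1 := by
      rw [← Finset.prod_pow, ← Finset.prod_mul_distrib]
      refine Finset.prod_eq_one fun i _ => ?_
      rw [← Matrix.det_pow, ← irm_pow A hA1 hA2, ← Matrix.det_mul, ← hA2, inv_mul_cancel, hA1,
        Matrix.det_one]
    have h4 := hrel p hp hpl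
    rw [mul_pow, ← pow_mul] at h4
    push_cast
    rw [one_mul]
    calc (∏ i, (A (x p i ^ E)⁻¹).det) = (∏ i, (A (x p i ^ E)⁻¹).det) *
          ((∏ i, (A (x p i)).det) ^ E * (p : ℚ_[l]) ^ (s * E)) := by rw [h4, mul_one]
      _ = (p : ℚ_[l]) ^ (s * E) := by rw [← mul_assoc, h3, one_mul]

end

theorem st_BAL7 (idx : ST_IDX) (inr : ST_INR) (hcyc : ST_CYC) (fre : ST_FRE) (pro : ST_PRO) :
    ST_BAL7 := by
  intro F _ _ S hS H hH
  obtain ⟨d, r, x, k, 𝔔, hd, hF, hT⟩ := b7_tri idx inr hcyc fre F H hH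
  refine ⟨d, r, x, k, 𝔔, hd, hF, ?_⟩
  intro n w h M l _ m B A hs
  obtain ⟨E, J, hE, hJ, hrel⟩ := b7_core M H hH l B A hs
    (fun A _ _ _ _ ψ c Bd h1 h2 h3 h4 => hT l A ψ c Bd h1 h2 h3 h4)
  have h2s := b7_bal pro M H l B A hs hF E _ hE hrel
  refine ⟨E, hE, fun p hp hpl => ?_⟩
  have h1 := hrel p hp hpl
  have h2 : E * (d * (m * w)) = (∑ i, ∑ j ∈ J i, h j) * (2 * E) := by
    calc E * (d * (m * w)) = E * (d * m * w) := by ring
      _ = E * (2 * ∑ i, ∑ j ∈ J i, h j) := by rw [h2s]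
      _ = _ := by ring
  rw [h2]
  set α := ∏ i, (A (x p i)).det
  set q := (p : ℚ_[l])
  set s := ∑ i, ∑ j ∈ J i, h j
  have h3 : α ^ (2 * E) * q ^ (s * (2 * E)) = ((α * q ^ s) ^ E) ^ 2 := by ring
  rw [h3, h1, one_pow]

end MT
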